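import Pool.Agent.N652.OM.Stm2
import Pool.Agent.Helper278.CEGap

/-!
# OM2/GAP: spectral gap of the conjugation from two Kazhdan subgroups
-/

set_option autoImplicit false

namespace Pool.Agent.N362.OM

open Pool.Agent.Helper278 Pool.Agent.N652.OM
open Pool.Agent.W661.RC (HasT)
open Pool.Agent.Helper278.CE (norm_sq_eq)

noncomputable section

section perm

variable {A : Type}

/-- permutation operators are unitary -/
def permU (e : A ≃ A) : unitary (EllTwo A →L[ℂ] EllTwo A) :=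
  ⟨permOp e, by
    rw [Unitary.mem_iff, star_permOp, permOp_mul, permOp_mul]
    refine ⟨?_, ?_⟩
    · rw [Equiv.symm_trans_self, permOp_refl]
    · rw [Equiv.self_trans_symm, permOp_refl]⟩

lemma permU_mul (e e' : A ≃ A) : permU e * permU e' = permU (e.trans e') :=
  Subtype.ext (permOp_mul e e')

lemma permU_refl : permU (Equiv.refl A) = 1 := Subtype.ext permOp_refl

end perm

variable {Γ : Type} [Group Γ] (K : Subgroup Γ)

/-- the elements with an infinite class -/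
def AK : Set Γ := {g | ¬ FO K g}

variable {K} in
lemma fo_conj {k : Γ} (hk : k ∈ K) (g : Γ) : FO K (k * g * k⁻¹) ↔ FO K g := by
  unfold FO
  have e : {x : Γ | ∃ k' ∈ K, x = k' * (k * g * k⁻¹) * k'⁻¹} = {x : Γ | ∃ k' ∈ K, x = k' * g * k'⁻¹} := by
    ext x
    constructor
    · rintro ⟨k', h1, rfl⟩
      exact ⟨k' * k, K.mul_mem h1 hk, by group⟩
    · rintro ⟨k', h1, rfl⟩
      exact ⟨k' * k⁻¹, K.mul_mem h1 (K.inv_mem hk), by group⟩
  rw [e]

/-- the conjugation `h ↦ k⁻¹ h k` -/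
def cj (k : K) : AK K ≃ AK K where
  toFun h := ⟨(k : Γ)⁻¹ * h * k, by
    have h1 := fo_conj (K.inv_mem k.2) (h : Γ)
    rw [inv_inv] at h1
    exact fun h2 => h.2 (h1.1 h2)⟩
  invFun h := ⟨(k : Γ) * h * (k : Γ)⁻¹, fun h2 => h.2 ((fo_conj k.2 (h : Γ)).1 h2)⟩
  left_inv h := Subtype.ext (by
    change (k : Γ) * ((k : Γ)⁻¹ * h * k) * (k : Γ)⁻¹ = h
    group)
  right_inv h := Subtype.ext (by
    change (k : Γ)⁻¹ * ((k : Γ) * h * (k : Γ)⁻¹) * k = h
    group)

lemma cj_val (k : K) (h : AK K) : ((cj K k h : AK K) : Γ) = (k : Γ)⁻¹ * h * k := rfl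

/-- the representation by conjugation -/
def rep : K →* unitary (EllTwo (AK K) →L[ℂ] EllTwo (AK K)) where
  toFun k := permU (cj K k)
  map_one' := by
    rw [← permU_refl]
    congr 1
    ext h
    rw [cj_val]
    simp
  map_mul' k k' := by
    rw [permU_mul]
    congr 1
    ext h
    rw [Equiv.trans_apply, cj_val, cj_val, cj_val]
    push_cast
    group

lemma rep_apply (k : K) (f : EllTwo (AK K)) (h : AK K) :
    ((rep K k : EllTwo (AK K) →L[ℂ] EllTwo (AK K)) f) h = f (cj K k h) := rfl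

/-- no invariant vectors -/
lemma no_inv (f : EllTwo (AK K)) (hf : ∀ k, (rep K k : EllTwo (AK K) →L[ℂ] EllTwo (AK K)) f = f) :
    f = 0 := by
  by_contra hne
  obtain ⟨h0, hh0⟩ : ∃ h0, f h0 ≠ 0 := by
    by_contra hcon
    push Not at hcon
    exact hne (lp.ext (funext hcon))
  have h1 := (norm_sq_eq f).summable.tendsto_cofinite_zero
  have hpos : 0 < ‖f h0‖ ^ 2 := by positivity
  have h2 : ∀ᶠ h in Filter.cofinite, ‖f h‖ ^ 2 < ‖f h0‖ ^ 2 := h1.eventually (gt_mem_nhds hpos)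
  rw [Filter.eventually_cofinite] at h2
  apply h0.2
  unfold FO
  refine (h2.image Subtype.val).subset ?_
  rintro _ ⟨k, hk, rfl⟩
  have h3 : k * (h0 : Γ) * k⁻¹ = ((cj K ⟨k⁻¹, K.inv_mem hk⟩ h0 : AK K) : Γ) := by
    rw [cj_val]
    simp
  refine ⟨cj K ⟨k⁻¹, K.inv_mem hk⟩ h0, ?_, h3.symm⟩
  have h4 := congrArg (fun g : EllTwo (AK K) => g h0) (hf ⟨k⁻¹, K.inv_mem hk⟩)
  simp only [rep_apply] at h4
  change ¬ ‖f (cj K ⟨k⁻¹, K.inv_mem hk⟩ h0)‖ ^ 2 < ‖f h0‖ ^ 2
  rw [h4]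
  exact lt_irrefl _

/-- the restriction -/
def res (f : EllTwo Γ) : EllTwo (AK K) :=
  ⟨fun h => f h, by
    have h1 := (lp.memℓp f).summable (by norm_num)
    refine memℓp_gen ?_
    exact h1.comp_injective Subtype.val_injective⟩

lemma res_apply (f : EllTwo Γ) (h : AK K) : res K f h = f h := rfl

lemma res_sub (f f' : EllTwo Γ) : res K (f - f') = res K f - res K f' := by
  ext h
  rfl

lemma norm_res (f : EllTwo Γ) :
    HasSum ((AK K).indicator fun g => ‖f g‖ ^ 2) (‖res K f‖ ^ 2) :=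
  hasSum_subtype_iff_indicator.1 (norm_sq_eq (res K f))

lemma norm_res_le (f : EllTwo Γ) : ‖res K f‖ ≤ ‖f‖ := by
  have h1 : ‖res K f‖ ^ 2 ≤ ‖f‖ ^ 2 := by
    refine hasSum_le (fun g => ?_) (norm_res K f) (norm_sq_eq f)
    by_cases hg : g ∈ AK K
    · rw [Set.indicator_of_mem hg]
    · rw [Set.indicator_of_notMem hg]
      positivity
  exact (sq_le_sq₀ (norm_nonneg _) (norm_nonneg _)).1 h1

lemma res_conj (k : K) (f : EllTwo Γ) :
    res K (permOp (MulAut.conj (k : Γ)⁻¹).toEquiv f) =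
      (rep K k : EllTwo (AK K) →L[ℂ] EllTwo (AK K)) (res K f) := by
  ext h
  rw [rep_apply, res_apply, res_apply, permOp_apply, cj_val]
  have e : (MulAut.conj (k : Γ)⁻¹).toEquiv (h : Γ) = (k : Γ)⁻¹ * h * k := by
    change (k : Γ)⁻¹ * h * (k : Γ)⁻¹⁻¹ = _
    rw [inv_inv]
  rw [e]

/-- the estimate for one subgroup -/
lemma one (hK : HasT K) : ∃ (E : Finset Γ) (C : ℝ), 0 < C ∧ ∀ f : EllTwo Γ, ∀ t : ℝ, 0 ≤ t →
    (∀ g ∈ E, ‖permOp (MulAut.conj g).toEquiv f - f‖ ≤ t) → ‖res K f‖ ≤ C * t := by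
  classical
  have h1 : ¬ ∀ (E : Finset K) (ε : ℝ), 0 < ε → ∃ v : EllTwo (AK K), ‖v‖ = 1 ∧ ∀ g ∈ E,
      ‖(rep K g : EllTwo (AK K) →L[ℂ] EllTwo (AK K)) v - v‖ < ε := by
    intro hcon
    obtain ⟨v, hv, hv'⟩ := hK (EllTwo (AK K)) (rep K) hcon
    exact hv (no_inv K v hv')
  push Not at h1
  obtain ⟨E, ε, hε, hE⟩ := h1
  refine ⟨Finset.image (fun k : K => (k : Γ)⁻¹) E, 1 / ε, by positivity, fun f t ht hf => ?_⟩
  by_cases h0 : res K f = 0
  · rw [h0, norm_zero]
    positivity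
  have hn : 0 < ‖res K f‖ := norm_pos_iff.2 h0
  obtain ⟨g, hg, hg'⟩ := hE (((‖res K f‖⁻¹ : ℝ) : ℂ) • res K f) (by
    rw [norm_smul, Complex.norm_real, norm_inv, norm_norm, inv_mul_cancel₀ hn.ne'])
  rw [map_smul, ← smul_sub, norm_smul, Complex.norm_real, norm_inv, norm_norm, ← res_conj,
    ← res_sub] at hg'
  have h2 := hf _ (Finset.mem_image_of_mem _ hg)
  have h3 := (norm_res_le K _).trans h2
  have h4 : ε ≤ ‖res K f‖⁻¹ * t := hg'.trans (mul_le_mul_of_nonneg_left h3 (by positivity))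
  rw [inv_mul_eq_div, le_div_iff₀ hn] at h4
  rw [one_div, inv_mul_eq_div, le_div_iff₀ hε]
  linarith

end

/-- **Spectral gap from two Kazhdan subgroups.** -/
theorem main : Pool.Agent.N652.OM.S_GAP := by
  classical
  intro Γ _ K T hK hT hKT
  obtain ⟨EK, CK, hCK, h1⟩ := one K hK
  obtain ⟨ET, CT, hCT, h2⟩ := one T hT
  refine ⟨insert 1 (EK ∪ ET), CK + CT, by positivity, fun f hf t ht => ?_⟩
  have ht0 : 0 ≤ t := (norm_nonneg _).trans (ht 1 (Finset.mem_insert_self _ _))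
  have h3 := h1 f t ht0 fun g hg => ht g (Finset.mem_insert_of_mem (Finset.mem_union_left _ hg))
  have h4 := h2 f t ht0 fun g hg => ht g (Finset.mem_insert_of_mem (Finset.mem_union_right _ hg))
  have h5 : ‖f‖ ^ 2 ≤ ‖res K f‖ ^ 2 + ‖res T f‖ ^ 2 := by
    refine hasSum_le (fun g => ?_) (norm_sq_eq f) ((norm_res K f).add (norm_res T f))
    by_cases hg1 : g = 1
    · rw [hg1, hf, norm_zero, zero_pow two_ne_zero]
      refine add_nonneg ?_ ?_ <;> exact Set.indicator_nonneg (fun _ _ => by positivity) _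
    · have h6 : g ∈ AK K ∨ g ∈ AK T := by
        by_contra hcon
        push Not at hcon
        exact hg1 (hKT g (not_not.1 hcon.1) (not_not.1 hcon.2))
      rcases h6 with h6 | h6
      · rw [Set.indicator_of_mem h6]
        have : 0 ≤ (AK T).indicator (fun g => ‖f g‖ ^ 2) g :=
          Set.indicator_nonneg (fun _ _ => by positivity) _
        linarith
      · rw [Set.indicator_of_mem (s := AK T) h6]
        have : 0 ≤ (AK K).indicator (fun g => ‖f g‖ ^ 2) g :=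
          Set.indicator_nonneg (fun _ _ => by positivity) _
        linarith
  have h6 : ‖f‖ ≤ ‖res K f‖ + ‖res T f‖ := by
    refine (sq_le_sq₀ (norm_nonneg _) (by positivity)).1 (h5.trans ?_)
    have := mul_nonneg (norm_nonneg (res K f)) (norm_nonneg (res T f))
    nlinarith
  rw [add_mul]
  linarith

end Pool.Agent.N362.OM
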